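import Pool.Agent.H31.Q.Defs
import Pool.Agent.H26.TR.Glob
import Pool.Agent.H45.TR.Minor
import Pool.Agent.H19.G5.Base

set_option autoImplicit false

/-!
Full states at `e` for codes with sides (MP_a46c6f_co, full Q1).
-/

namespace Pool.Agent.H96.Q

open Finset Pool.Agent.H98.Code Pool.Agent.H26.TR
open Pool.Agent.H31.Q (Sides)

variable {V : Type} [Fintype V] [DecidableEq V]
variable {L : Submodule (ZMod 2) (V → K)} {S : (V → K) → Finset V → Prop}
variable {e : V} {D : V → K} {P : Finset (Finset V)}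

/-- the standing hypotheses on a full state -/
structure HypW (L : Submodule (ZMod 2) (V → K)) (e : V) (D : V → K) : Prop where
  iso : ∀ u ∈ L, ∀ w ∈ L, form u w = 0
  noz : ∀ u ∈ L, (∀ v, v ≠ e → u v = 0) → u e ≠ z
  letter : ∀ v, v ≠ e → (D v).1 = 1
  full : ∀ v, v ≠ e → ∃ u, KD L D e u ∧ u v ≠ 0
  split : ∀ u, KD L D e u → u ≠ 0 → u e = 0 → ∃ c₁ c₂, KD L D e c₁ ∧ KD L D e c₂ ∧ c₁ e = z ∧
    c₂ e = z ∧ u = c₁ + c₂ ∧ ∀ v, v ≠ e → c₁ v = 0 ∨ c₂ v = 0

theorem HypW.D_ne (h : HypW L e D) {v : V} (hv : v ≠ e) : D v ≠ 0 := by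
  intro h0
  have := h.letter v hv
  rw [h0] at this
  exact absurd this (by decide)

/-- a splitting of a word of the state is at `e` -/
theorem split_at_e (iso : ∀ u ∈ L, ∀ w ∈ L, form u w = 0) (letter : ∀ v, v ≠ e → (D v).1 = 1)
    (full : ∀ v, v ≠ e → ∃ u, KD L D e u ∧ u v ≠ 0) {u c₁ c₂ : V → K} {g : V} (hu : KD L D e u)
    (hue : u e = 0) (hc₁ : c₁ ∈ L) (hsum' : c₁ + c₂ = u) (hg1 : c₁ g = z)
    (hd : ∀ v, v ≠ g → c₁ v = 0 ∨ c₂ v = 0) : g = e := by
  have hval : ∀ v, v ≠ g → (c₁ v = 0 ∨ c₁ v = u v) := by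
    intro v hv
    have hs : u v = c₁ v + c₂ v := by rw [← hsum']; rfl
    rcases hd v hv with h1 | h1
    · exact Or.inl h1
    · rw [h1, add_zero] at hs
      exact Or.inr hs.symm
  by_contra hne
  obtain ⟨k, hk, hkg⟩ := full g hne
  have hkD : k g = D g := by
    rcases hk.2.1 g hne with h1 | h1
    · exact absurd h1 hkg
    · exact h1
  have hform := iso c₁ hc₁ k hk.1
  have hone : ∑ v, kf (c₁ v) (k v) = kf (c₁ g) (k g) := by
    apply Finset.sum_eq_single g
    · intro v _ hv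
      by_cases hve : v = e
      · have : c₁ v = 0 := by
          rcases hval v hv with h1 | h1
          · exact h1
          · rw [h1, hve, hue]
        rw [this]; simp [kf]
      · have h1 : c₁ v = 0 ∨ c₁ v = D v := by
          rcases hval v hv with h1 | h1
          · exact Or.inl h1
          · rcases hu.2.1 v hve with h2 | h2
            · left; rw [h1, h2]
            · right; rw [h1, h2]
        rcases h1 with h1 | h1
        · rw [h1]; simp [kf]
        · rcases hk.2.1 v hve with h2 | h2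
          · rw [h2]; simp [kf]
          · rw [h1, h2]
            unfold kf
            rw [mul_comm]
            exact CharTwo.add_self_eq_zero _
    · intro hg'
      exact absurd (Finset.mem_univ g) hg'
  unfold form at hform
  rw [hone, hg1, hkD] at hform
  have hl := letter g hne
  unfold kf z at hform
  rw [hl] at hform
  exact absurd hform (by simp)

theorem zfree_of_le (letter : ∀ v, v ≠ e → (D v).1 = 1) {u : V → K} (hu : KD L D e u)
    (hue : u e = 0) : ZFree u := by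
  intro v hv1
  by_cases hv : v = e
  · rw [hv, hue] at hv1
    exact absurd hv1 (by decide)
  · rcases hu.2.1 v hv with h1 | h1
    · rw [h1] at hv1
      exact absurd hv1 (by decide)
    · have := letter v hv
      rw [← h1, hv1] at this
      exact absurd this (by decide)

/-- the side which avoids `e` -/
theorem ex_off (hS : Sides L S) {u : V → K} (hu : u ∈ L) (e : V) :
    ∃ Y, S u Y ∧ e ∉ Y := by
  obtain ⟨Y, hY⟩ := hS.ex u hu
  by_cases he : e ∈ Y
  · obtain ⟨Y', hY', hiff⟩ := hS.compl u Y hY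
    exact ⟨Y', hY', fun h => ((hiff e).1 h).2 he⟩
  · exact ⟨Y, hY, he⟩

/-- from a half at `e` which is below `u` on the support of `u` and `0` outside `supp u ∪ Y ∪ {e}` -/
theorem half (hS : Sides L S) {u : V → K} {Y : Finset V} (hu : S u Y) (hue : u e = 0)
    (he : e ∉ Y) {c : V → K} (hc : c ∈ L) (hce : c e = z)
    (hcu : ∀ v, u v ≠ 0 → c v = 0 ∨ c v = u v) (hc0 : ∀ v, v ≠ e → u v = 0 → v ∉ Y → c v = 0) :
    ∃ c₁ c₂, c₁ ∈ L ∧ c₂ ∈ L ∧ c₁ e = z ∧ c₂ e = z ∧ c₁ + c₂ = u ∧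
      (∀ v, v ≠ e → c₁ v = 0 ∨ c₂ v = 0) ∧ (∀ v, v ≠ e → c₁ v = 0 ∨ c₁ v = u v) ∧
      ∀ v, v ≠ e → c₂ v = 0 ∨ c₂ v = u v := by
  obtain ⟨q, hqL, hq1, hq2, hq3, -, -⟩ := hS.part u Y hu c hc hcu
  have huL := (hS.mem u Y hu).1
  have hc1e : (c + q) e = z := by rw [Pi.add_apply, hce, hq2 e hue he, add_zero]
  have hval : ∀ v, v ≠ e → (c + q) v = 0 ∨ (c + q) v = u v := by
    intro v hv
    by_cases h0 : u v = 0
    · left
      by_cases hY : v ∈ Y
      · rw [Pi.add_apply, hq1 v hY, K_add_self]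
      · rw [Pi.add_apply, hq2 v h0 hY, hc0 v hv h0 hY, add_zero]
    · rw [Pi.add_apply]
      rcases hcu v h0 with h1 | h1 <;> rcases hq3 v h0 with h2 | h2
      · left; rw [h1, h2, add_zero]
      · right; rw [h1, h2, zero_add]
      · right; rw [h1, h2, add_zero]
      · left; rw [h1, h2, K_add_self]
  refine ⟨c + q, (c + q) + u, L.add_mem hc hqL, L.add_mem (L.add_mem hc hqL) huL, hc1e, ?_, ?_, ?_,
    hval, ?_⟩
  · rw [Pi.add_apply, hc1e, hue, add_zero]
  · funext v
    show (c + q) v + ((c + q) v + u v) = u v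
    rw [← add_assoc, K_add_self, zero_add]
  · intro v hv
    rcases hval v hv with h1 | h1
    · exact Or.inl h1
    · right
      rw [Pi.add_apply, h1, K_add_self]
  · intro v hv
    rcases hval v hv with h1 | h1
    · right
      rw [Pi.add_apply, h1, zero_add]
    · left
      rw [Pi.add_apply, h1, K_add_self]

/-- **(K)** words of a full state split at `e` -/
theorem splitK (hS : Sides L S) (iso : ∀ u ∈ L, ∀ w ∈ L, form u w = 0)
    (letter : ∀ v, v ≠ e → (D v).1 = 1) (full : ∀ v, v ≠ e → ∃ u, KD L D e u ∧ u v ≠ 0)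
    {u : V → K} (hu : KD L D e u) (hu0 : u ≠ 0) (hue : u e = 0) :
    ∃ c₁ c₂, KD L D e c₁ ∧ KD L D e c₂ ∧ c₁ e = z ∧ c₂ e = z ∧ u = c₁ + c₂ ∧
      ∀ v, v ≠ e → c₁ v = 0 ∨ c₂ v = 0 := by
  classical
  obtain ⟨Y, hY, heY⟩ := ex_off hS hu.1 e
  -- the smallest side inside
  have key : ∀ (n : ℕ) (u' : V → K) (Y' : Finset V), Y'.card = n → S u' Y' → Y' ⊆ Y →
      KD L D e u' → u' ≠ 0 → u' e = 0 → (∀ v, u v ≠ 0 → u' v = 0 ∨ u' v = u v) →
      (∀ v, u v = 0 → v ∉ Y → u' v = 0) →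
      ∃ c ∈ L, c e = z ∧ (∀ v, u v ≠ 0 → c v = 0 ∨ c v = u v) ∧
        (∀ v, v ≠ e → u v = 0 → v ∉ Y → c v = 0) := by
    intro n
    induction n using Nat.strong_induction_on with
    | _ n ih =>
    intro u' Y' hn hS' hsub hk hne h0 hle hoff
    by_cases hYe : Y' = ∅
    · subst hYe
      obtain ⟨g, c₁, hc₁, c₂, hc₂, hsum, hg1, hg2, hd⟩ := hS.wc u' hS' (zfree_of_le letter hk h0) hne
      have hge : g = e := split_at_e iso letter full hk h0 hc₁ hsum hg1 hd
      subst hge
      have hval : ∀ v, v ≠ g → (c₁ v = 0 ∨ c₁ v = u' v) := by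
        intro v hv
        have hs : u' v = c₁ v + c₂ v := by rw [← hsum]; rfl
        rcases hd v hv with h1 | h1
        · exact Or.inl h1
        · rw [h1, add_zero] at hs
          exact Or.inr hs.symm
      refine ⟨c₁, hc₁, hg1, ?_, ?_⟩
      · intro v hv
        have hvg : v ≠ g := fun h1 => hv (h1 ▸ hue)
        rcases hval v hvg with h1 | h1
        · exact Or.inl h1
        · rw [h1]; exact hle v hv
      · intro v hv1 hv2 hv3
        rcases hval v hv1 with h1 | h1
        · exact h1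
        · rw [h1]; exact hoff v hv2 hv3
    · obtain ⟨v, hv⟩ := Finset.nonempty_iff_ne_empty.2 hYe
      have hve : v ≠ e := fun h1 => heY (h1 ▸ hsub hv)
      obtain ⟨κ, hκ, hκv⟩ := full v hve
      have hκu : ∀ x, u' x ≠ 0 → κ x = 0 ∨ κ x = u' x := by
        intro x hx
        have hxe : x ≠ e := fun h1 => hx (h1 ▸ h0)
        rcases hκ.2.1 x hxe with h1 | h1
        · exact Or.inl h1
        · rcases hk.2.1 x hxe with h2 | h2
          · exact absurd h2 hx
          · right; rw [h1, h2]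
      obtain ⟨k', hk'L, hk1, hk2, hk3, ⟨Y'', hsub', hk'S⟩, -⟩ := hS.part u' Y' hS' κ hκ.1 hκu
      have heY' : e ∉ Y' := fun h1 => heY (hsub h1)
      have hk'Y := (hS.mem k' Y'' hk'S).2
      have hvY'' : v ∉ Y'' := by
        intro h1
        have := hk'Y v h1
        rw [hk1 v hv] at this
        exact hκv this
      have hlt : Y''.card < n := by
        rw [← hn]
        exact Finset.card_lt_card ⟨hsub', fun h1 => hvY'' (h1 hv)⟩
      refine ih _ hlt k' Y'' rfl hk'S (hsub'.trans hsub) ⟨hk'L, ?_, Or.inl (hk2 e h0 heY')⟩ ?_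
        (hk2 e h0 heY') ?_ ?_
      · intro x hx
        by_cases hxY : x ∈ Y'
        · rw [hk1 x hxY]; exact hκ.2.1 x hx
        · by_cases hx0 : u' x = 0
          · exact Or.inl (hk2 x hx0 hxY)
          · rcases hk3 x hx0 with h1 | h1
            · exact Or.inl h1
            · rw [h1]; exact hk.2.1 x hx
      · intro h1
        have h2 := hk1 v hv
        rw [h1] at h2
        exact hκv h2.symm
      · intro x hx
        have hxY : x ∉ Y' := fun h1 => hx ((hS.mem u Y hY).2 x (hsub h1))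
        by_cases hx0 : u' x = 0
        · exact Or.inl (hk2 x hx0 hxY)
        · rcases hk3 x hx0 with h1 | h1
          · exact Or.inl h1
          · rw [h1]; exact hle x hx
      · intro x hx hxY
        exact hk2 x (hoff x hx hxY) (fun h1 => hxY (hsub h1))
  obtain ⟨c, hc, hce, hcu, hc0⟩ := key _ u Y rfl hY (Finset.Subset.refl _) hu hu0 hue
    (fun v _ => Or.inr rfl) (fun v h1 _ => h1)
  obtain ⟨c₁, c₂, h1, h2, h3, h4, h5, h6, h7, h8⟩ := half hS hY hue heY hc hce hcu hc0
  refine ⟨c₁, c₂, ⟨h1, ?_, Or.inr h3⟩, ⟨h2, ?_, Or.inr h4⟩, h3, h4, h5.symm, h6⟩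
  · intro v hv
    rcases h7 v hv with h9 | h9
    · exact Or.inl h9
    · rw [h9]; exact hu.2.1 v hv
  · intro v hv
    rcases h8 v hv with h9 | h9
    · exact Or.inl h9
    · rw [h9]; exact hu.2.1 v hv

/-- a full state -/
theorem hypW (hS : Sides L S) (iso : ∀ u ∈ L, ∀ w ∈ L, form u w = 0)
    (noz : ∀ u ∈ L, (∀ v, v ≠ e → u v = 0) → u e ≠ z)
    (letter : ∀ v, v ≠ e → (D v).1 = 1) (full : ∀ v, v ≠ e → ∃ u, KD L D e u ∧ u v ≠ 0) :
    HypW L e D :=
  ⟨iso, noz, letter, full, fun _ hu hu0 hue => splitK hS iso letter full hu hu0 hue⟩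

/-- the code of a state -/
def LD (L : Submodule (ZMod 2) (V → K)) (D : V → K) (e : V) : Submodule (ZMod 2) (V → K) where
  carrier := {u | KD L D e u}
  zero_mem' := KD.zero
  add_mem' := fun hu hw => KD.add hu hw
  smul_mem' := by
    intro c u hu
    have hc : c = 0 ∨ c = 1 := by revert c; decide
    rcases hc with rfl | rfl
    · rw [zero_smul]; exact KD.zero
    · rw [one_smul]; exact hu

theorem kd_LD {u : V → K} : KD (LD L D e) D e u ↔ KD L D e u :=
  ⟨fun h => h.1, fun h => ⟨h, h.2.1, h.2.2⟩⟩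

theorem HypW.hyp (h : HypW L e D) : Hyp (LD L D e) e D := by
  refine ⟨fun u hu w hw => h.iso u hu.1 w hw.1, fun u hu => h.noz u hu.1, ?_, h.letter, ?_⟩
  · intro u hu hu0 _ hue
    obtain ⟨c₁, c₂, h1, h2, h3, h4, h5, h6⟩ := h.split u hu hu0 hue
    exact ⟨e, c₁, h1, c₂, h2, h5.symm, h3, h4, h6⟩
  · intro v hv
    obtain ⟨u, hu, hu0⟩ := h.full v hv
    exact ⟨u, kd_LD.2 hu, hu0⟩

theorem HypW.exists_parts (h : HypW L e D) : ∃ P, IsParts L e D P := by
  obtain ⟨P, hP⟩ := h.hyp.exists_parts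
  exact ⟨P, ⟨fun M hM => ⟨(hP.mem M hM).1, (hP.mem M hM).2.1, (hP.mem M hM).2.2.1⟩, hP.disj,
    hP.cover, fun u hu => hP.union u (kd_LD.2 hu)⟩⟩

theorem HypW.exists_total (h : HypW L e D) : ∃ u, KD L D e u ∧ ∀ v, v ≠ e → u v = D v := by
  obtain ⟨u, hu, hut⟩ := h.hyp.exists_total
  exact ⟨u, kd_LD.1 hu, hut⟩

theorem HypW.unique' {D' : V → K} (h : HypW L e D) (h' : HypW L e D')
    (hz : ∀ u ∈ L, ZOnly u → u = 0 ∨ ∀ v, u v = z) :
    (∀ v, v ≠ e → D v = D' v) ∨ (∀ v, v ≠ e → D v = D' v + z) := by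
  obtain ⟨u, hu, hut⟩ := h.exists_total
  obtain ⟨w, hw, hwt⟩ := h'.exists_total
  have h0 : u + w = 0 ∨ ∀ v, (u + w) v = z := by
    apply hz _ (L.add_mem hu.1 hw.1)
    intro v
    by_cases hv : v = e
    · rw [hv, Pi.add_apply]
      exact K_fst_add _ _ hu.2.2 hw.2.2
    · rw [Pi.add_apply, hut v hv, hwt v hv, Prod.fst_add, h.letter v hv, h'.letter v hv]
      decide
  rcases h0 with h0 | h0
  · left
    intro v hv
    have h1 := congrFun h0 v
    rw [Pi.add_apply, hut v hv, hwt v hv, Pi.zero_apply] at h1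
    have h2 : D v + D' v + D' v = D' v := by rw [h1, zero_add]
    rw [add_assoc, K_add_self, add_zero] at h2
    exact h2
  · right
    intro v hv
    have h1 := h0 v
    rw [Pi.add_apply, hut v hv, hwt v hv] at h1
    have h2 : D v + D' v + D' v = z + D' v := by rw [h1]
    rw [add_assoc, K_add_self, add_zero] at h2
    rw [h2, add_comm]

/-- a state which is full on one part -/
theorem hyp_change (hS : Sides L S) (hP : IsParts L e D P) (h : HypW L e D) {M : Finset V}
    (hM : M ∈ P) (D' : V → K) (hoff : ∀ v, v ∉ M → D' v = D v) (hlet : ∀ v, v ∈ M → (D' v).1 = 1)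
    (hfull : ∀ v, v ∈ M → ∃ u, KD L D' e u ∧ u v ≠ 0) : HypW L e D' := by
  have hlet' : ∀ v, v ≠ e → (D' v).1 = 1 := by
    intro v hv
    by_cases hvM : v ∈ M
    · exact hlet v hvM
    · rw [hoff v hvM]; exact h.letter v hv
  refine hypW hS h.iso h.noz hlet' ?_
  intro v hv
  by_cases hvM : v ∈ M
  · exact hfull v hvM
  · obtain ⟨M', hM', hvM'⟩ := hP.cover v hv
    have hne : M' ≠ M := by
      rintro rfl
      exact hvM hvM'
    refine ⟨pw D e M', ⟨(hP.mem M' hM').2.2, ?_, Or.inr (by simp [pw])⟩, ?_⟩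
    · intro w hw
      unfold pw
      rw [if_neg hw]
      by_cases hwM' : w ∈ M'
      · rw [if_pos hwM']
        right
        rw [hoff w (Finset.disjoint_left.1 (hP.disj M' hM' M hM hne) hwM')]
      · rw [if_neg hwM']
        exact Or.inl rfl
    · unfold pw
      rw [if_neg hv, if_pos hvM']
      exact h.D_ne hv

theorem glob_unique (hP : IsParts L e D P) (h : HypW L e D)
    (hz : ∀ u ∈ L, ZOnly u → u = 0 ∨ ∀ v, u v = z) {M M' : Finset V}
    (hM : M ∈ P) (hM' : M' ∈ P) (hne : M' ≠ M) {D' : V → K} (h' : HypW L e D')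
    (hoff : ∀ v, v ∉ M → D' v = D v) : ∀ v, v ≠ e → D v = D' v := by
  rcases h.unique' h' hz with h1 | h1
  · exact h1
  · exfalso
    obtain ⟨w, hw⟩ := Finset.nonempty_iff_ne_empty.2 (hP.mem M' hM').1
    have hwM : w ∉ M := Finset.disjoint_left.1 (hP.disj M' hM' M hM hne) hw
    have hwe : w ≠ e := fun h0 => (hP.mem M' hM').2.1 (h0 ▸ hw)
    have h2 := h1 w hwe
    rw [hoff w hwM] at h2
    have h3 : D w + D w = z := by
      nth_rewrite 1 [h2]
      rw [add_comm, ← add_assoc, K_add_self, zero_add]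
    rw [K_add_self] at h3
    exact absurd h3 (by decide)

/-- no `{0,z}`-word in the pair code -/
theorem glob_noZ (hS : Sides L S) (hP : IsParts L e D P) (h : HypW L e D)
    (hz : ∀ u ∈ L, ZOnly u → u = 0 ∨ ∀ v, u v = z) {M M' : Finset V}
    (hM : M ∈ P) (hM' : M' ∈ P) (hMM : M' ≠ M) {u : V → K} (hu : u ∈ L)
    (hoff : ∀ v, v ∉ M → v ≠ e → u v = 0 ∨ u v = D v)
    (hue : u e = 0 ∨ u e = z) (huM : ∀ v, v ∈ M → (u v).1 = 0) : ∀ v, v ∈ M → u v = 0 := by
  have heM : e ∉ M := (hP.mem M hM).2.1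
  set D' : V → K := fun v => if v ∈ M then D v + u v else D v with hD'
  have hne : ∀ v, v ∈ M → v ≠ e := fun v hv h0 => heM (h0 ▸ hv)
  have hlet : ∀ v, v ∈ M → (D' v).1 = 1 := by
    intro v hv
    rw [hD']
    simp only [if_pos hv]
    rw [Prod.fst_add, h.letter v (hne v hv), huM v hv, add_zero]
  have hw : KD L D' e (pw D e M + u) := by
    refine ⟨L.add_mem (hP.mem M hM).2.2 hu, ?_, ?_⟩
    · intro w hw
      rw [Pi.add_apply, hD']
      unfold pw
      by_cases hwM : w ∈ M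
      · right
        simp only [if_neg hw, if_pos hwM]
      · simp only [if_neg hw, if_neg hwM, zero_add]
        exact hoff w hwM hw
    · rw [Pi.add_apply]
      have : pw D e M e = z := by simp [pw]
      rw [this]
      rcases hue with h1 | h1
      · right; rw [h1, add_zero]
      · left; rw [h1, K_add_self]
  have hoff' : ∀ v, v ∉ M → D' v = D v := by
    intro v hv
    rw [hD']
    simp only [if_neg hv]
  have h' : HypW L e D' := by
    refine hyp_change hS hP h hM D' hoff' hlet ?_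
    intro v hv
    refine ⟨_, hw, ?_⟩
    rw [Pi.add_apply]
    unfold pw
    rw [if_neg (hne v hv), if_pos hv]
    intro h0
    have h1 := hlet v hv
    rw [hD'] at h1
    simp only [if_pos hv] at h1
    rw [h0] at h1
    exact absurd h1 (by decide)
  intro v hv
  have h1 := glob_unique hP h hz hM hM' hMM h' hoff' v (hne v hv)
  rw [hD'] at h1
  simp only [if_pos hv] at h1
  have h2 : D v + D v = D v + (D v + u v) := by rw [← h1]
  rw [K_add_self, ← add_assoc, K_add_self, zero_add] at h2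
  exact h2.symm

open Pool.Agent.H45.TR in
/-- the codes `N` have no `{0,z}`-word -/
theorem glob_noZ_N (hS : Sides L S) (H : HypW L e D) (hP : IsParts L e D P)
    {h : Finset V → V}
    (hz : ∀ u ∈ L, ZOnly u → u = 0 ∨ ∀ v, u v = z) {M₀ M' : Finset V}
    (hM₀ : M₀ ∈ P) (hM' : M' ∈ P) (hne : M' ≠ M₀) (hh : ∀ M ∈ P.erase M₀, h M ∈ M) :
    NoZ (N L D (P.erase M₀) h) := by
  have hPP : Parts L e D P := ⟨fun M hM => (hP.mem M hM).1, fun M hM => (hP.mem M hM).2.1,
    fun M hM => (hP.mem M hM).2.2, hP.disj, hP.cover, hP.union⟩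
  intro a ha hza
  obtain ⟨u, hu, hus, rfl⟩ := ha
  have heW : ∀ M ∈ P.erase M₀, e ∉ M := fun M hM => (hP.mem M (Finset.mem_of_mem_erase hM)).2.1
  have hue : (u e).1 = 0 := hza ⟨e, heW⟩
  have hsub : P.erase M₀ ⊆ P := Finset.erase_subset _ _
  have hle : ∀ v, v ∉ M₀ → v ≠ e → u v = 0 ∨ u v = D v := by
    intro v hv hve
    obtain ⟨M, hM, hvM⟩ := hP.cover v hve
    have hMM : M ≠ M₀ := by
      rintro rfl
      exact hv hvM
    exact le_D H.iso hPP hsub H.letter hh hu hue hus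
      ((nmem_range_iff _ v).2 ⟨M, Finset.mem_erase.2 ⟨hMM, hM⟩, hvM⟩)
  have h0 : ∀ v, v ∈ M₀ → (u v).1 = 0 := by
    intro v hv
    have hvW : ∀ M ∈ P.erase M₀, v ∉ M := by
      intro M hM hvM
      have hM1 := Finset.mem_erase.1 hM
      exact Finset.disjoint_left.1 (hP.disj M hM1.2 M₀ hM₀ hM1.1) hvM hv
    exact hza ⟨v, hvW⟩
  have hM0 : ∀ v, v ∈ M₀ → u v = 0 :=
    glob_noZ hS hP H hz hM₀ hM' hne hu hle (K_cases _ hue) h0
  have hKD : KD L D e u := by
    refine ⟨hu, ?_, K_cases _ hue⟩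
    intro v hve
    by_cases hv : v ∈ M₀
    · exact Or.inl (hM0 v hv)
    · exact hle v hv hve
  have hall : ∀ v, v ≠ e → u v = 0 := by
    intro v hve
    obtain ⟨M, hM, hvM⟩ := hP.cover v hve
    by_cases hMM : M = M₀
    · exact hM0 v (hMM ▸ hvM)
    · have hME : M ∈ P.erase M₀ := Finset.mem_erase.2 ⟨hMM, hM⟩
      have h1 : u (h M) = 0 := eq_zero_h H.iso hPP hsub H.letter hh hu hue hus hME
      rcases hP.union u hKD M hM with h2 | h2
      · have := (Pool.Agent.H26.TR.mem_sup.1 (h2 (hh M hME))).2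
        exact absurd h1 this
      · by_contra hne'
        exact Finset.disjoint_left.1 h2 hvM (Pool.Agent.H26.TR.mem_sup.2 ⟨hve, hne'⟩)
  have hu0 : u = 0 := by
    funext v
    by_cases hve : v = e
    · rw [hve]
      rcases K_cases _ hue with h1 | h1
      · exact h1
      · exact absurd h1 (H.noz u hu hall)
    · exact hall v hve
  rw [hu0]
  rfl

end Pool.Agent.H96.Q
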